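import Pool.Agent.U849.TG.Art

/-!
# Complex conjugation
-/

set_option autoImplicit false
set_option maxHeartbeats 1000000

namespace Pool.Agent.U849.SM

open NumberField Polynomial
open Pool.Agent.U175.DS Pool.Agent.U849.TG

attribute [local instance 10] DivisionRing.toRatAlgebra

/-- `c` is the complex conjugation of an embedding of the algebraic numbers in `ℂ`. -/
def IsComplexConj (c : GQ) : Prop :=
  ∃ τ : AlgebraicClosure ℚ →+* ℂ, ∀ x : AlgebraicClosure ℚ, τ (c x) = star (τ x)

theorem exists_conj : ∃ c : GQ, IsComplexConj c := by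
  have hinj : ∀ τ : AlgebraicClosure ℚ →+* ℂ, Function.Injective τ := fun τ => τ.injective
  let τ : AlgebraicClosure ℚ →ₐ[ℚ] ℂ := IsAlgClosed.lift
  let _ : Algebra (AlgebraicClosure ℚ) ℂ := τ.toRingHom.toAlgebra
  have : IsScalarTower ℚ (AlgebraicClosure ℚ) ℂ := IsScalarTower.of_algebraMap_eq fun x => (τ.commutes x).symm
  let χ : ℂ ≃ₐ[ℚ] ℂ := AlgEquiv.ofRingEquiv (f := (starRingAut : ℂ ≃+* ℂ)) fun x => by
    change star (algebraMap ℚ ℂ x) = algebraMap ℚ ℂ x
    simp
  refine ⟨χ.restrictNormal (AlgebraicClosure ℚ), τ.toRingHom, fun x => ?_⟩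
  exact AlgEquiv.restrictNormal_commutes χ (AlgebraicClosure ℚ) x

theorem conj_sq {c : GQ} (hc : IsComplexConj c) : c * c = 1 := by
  obtain ⟨τ, hτ⟩ := hc
  apply AlgEquiv.ext
  intro x
  apply τ.injective
  change τ (c (c x)) = τ x
  rw [hτ, hτ, star_star]

theorem ms_two {r : Multiset ℂ} {a b : ℂ} (hab : a ≠ b) (h : ∀ e ∈ r, e = a ∨ e = b) :
    r = Multiset.replicate (open Classical in r.count a) a + Multiset.replicate (open Classical in r.count b) b := by
  classical
  rw [Multiset.ext]
  intro x
  rw [Multiset.count_add, Multiset.count_replicate, Multiset.count_replicate]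
  by_cases h1 : x = a
  · subst h1
    rw [if_pos rfl, if_neg hab.symm, add_zero]
  · by_cases h2 : x = b
    · subst h2
      rw [if_neg hab, if_pos rfl, zero_add]
    · rw [if_neg (Ne.symm h1), if_neg (Ne.symm h2), Multiset.count_eq_zero]
      intro hx
      rcases h x hx with h3 | h3
      · exact h1 h3
      · exact h2 h3

/-- matrices of order two -/
theorem charpoly_involution {n : ℕ} {M : Matrix (Fin n) (Fin n) ℂ} (hM : M * M = 1) {μ : Multiset ℂ}
    (h : μ = M.charpoly.roots.map fun e => (1 - e) / 2) :
    μ = Multiset.replicate (open Classical in μ.count 0) 0 + Multiset.replicate (open Classical in μ.count 1) 1 ∧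
      M.charpoly = (X - 1) ^ (open Classical in μ.count 0) * (X + 1) ^ (open Classical in μ.count 1) := by
  classical
  set r := M.charpoly.roots with hr
  have h1 : ∀ e ∈ r, e = 1 ∨ e = -1 := by
    intro e he
    have h2 : e ∈ spectrum ℂ M :=
      Matrix.mem_spectrum_iff_isRoot_charpoly.2 (Polynomial.isRoot_of_mem_roots he)
    have h3 := spectrum.subset_polynomial_aeval M (X * X - 1 : ℂ[X]) ⟨e, h2, rfl⟩
    rw [map_sub, map_mul, map_one, aeval_X, hM, sub_self] at h3
    by_cases hn : Nontrivial (Matrix (Fin n) (Fin n) ℂ)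
    · rw [spectrum.zero_eq] at h3
      have h4 : e * e - 1 = 0 := by simpa using h3
      have h5 : (e - 1) * (e + 1) = 0 := by linear_combination h4
      rcases mul_eq_zero.1 h5 with h6 | h6
      · exact Or.inl (sub_eq_zero.1 h6)
      · exact Or.inr (eq_neg_of_add_eq_zero_left h6)
    · rw [not_nontrivial_iff_subsingleton] at hn
      rw [spectrum.of_subsingleton] at h2
      exact absurd h2 (Set.notMem_empty _)
  have h2 := ms_two (a := (1 : ℂ)) (b := -1) (by norm_num) h1
  have h3 : μ = Multiset.replicate (r.count 1) 0 + Multiset.replicate (r.count (-1)) 1 := by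
    rw [h, h2, Multiset.map_add, Multiset.map_replicate, Multiset.map_replicate]
    simp only [Multiset.count_add, Multiset.count_replicate]
    norm_num
  have h4 : μ.count 0 = r.count 1 := by
    rw [h3, Multiset.count_add, Multiset.count_replicate, Multiset.count_replicate]
    norm_num
  have h5 : μ.count 1 = r.count (-1) := by
    rw [h3, Multiset.count_add, Multiset.count_replicate, Multiset.count_replicate]
    norm_num
  refine ⟨?_, ?_⟩
  · rw [h4, h5]
    exact h3
  · rw [h4, h5]
    have e1 := (IsAlgClosed.splits M.charpoly).eq_prod_roots_of_monic (Matrix.charpoly_monic _)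
    rw [e1, ← hr]
    conv_lhs => rw [h2]
    rw [Multiset.map_add, Multiset.prod_add, Multiset.map_replicate, Multiset.map_replicate,
      Multiset.prod_replicate, Multiset.prod_replicate]
    simp

end Pool.Agent.U849.SM
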