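import Pool.Agent.U849.TG.Main
import Pool.Agent.U849.IR.Main

/-!
# Artin motives: coefficients in a number field, irreducibility, complex conjugation
-/

set_option autoImplicit false
set_option maxHeartbeats 1000000

namespace Pool.Agent.U849.SM

open NumberField Polynomial Filter Topology IsDedekindDomain
open Pool.Agent.U175.DS Pool.Agent.U849.TG

attribute [local instance 10] DivisionRing.toRatAlgebra

variable {n : ℕ}

/-- **Descent to a number field.** -/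
theorem descend {K : Type} [Field K] [NumberField K] (σ₀ : K →+* ℂ) (R : GQ →* GL (Fin n) ℂ)
    (hR : IsOpen (R.ker : Set GQ))
    (hc : ∀ g, ∃ P : K[X], P.map σ₀ = (mat R g).charpoly) :
    ∃ (L : Type) (_ : Field L) (_ : NumberField L) (_ : Algebra K L) (j : L →+* ℂ)
      (R' : GQ →* GL (Fin n) L), j.comp (algebraMap K L) = σ₀ ∧ IsOpen (R'.ker : Set GQ) ∧
        R.ker ≤ R'.ker ∧ ∀ g, ((R' g : GL (Fin n) L) : Matrix (Fin n) (Fin n) L).charpoly.map j =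
          (mat R g).charpoly := by
  classical
  let _ : Algebra K ℂ := σ₀.toAlgebra
  have hfin : Finite (GQ ⧸ R.ker) := Subgroup.quotient_finite_of_isOpen _ hR
  let M : (GQ ⧸ R.ker) →* Matrix (Fin n) (Fin n) ℂ :=
    (Units.coeHom (Matrix (Fin n) (Fin n) ℂ)).comp (QuotientGroup.kerLift R)
  have hM : ∀ g : GQ, M (g : GQ ⧸ R.ker) = mat R g := fun g => rfl
  obtain ⟨L, iL, iA, hf, R0, hR0⟩ := Pool.Agent.U849.DG.exists_pt (K := K) (Q := ℂ) M
    {t | Pool.Agent.U849.DG.val (M t.1) t.2.1 = algebraMap K ℂ t.2.2} (fun t ht => ht)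
  have hNF : NumberField L := NumberField.of_module_finite K L
  let j : L →ₐ[K] ℂ := IsAlgClosed.lift
  refine ⟨L, iL, hNF, iA, j.toRingHom, R0.comp (QuotientGroup.mk' R.ker), ?_, ?_, ?_, fun g => ?_⟩
  · refine RingHom.ext fun x => ?_
    exact j.commutes x
  · refine Subgroup.isOpen_mono (H₁ := R.ker) ?_ hR
    intro g hg
    rw [MonoidHom.mem_ker, MonoidHom.comp_apply]
    have : (QuotientGroup.mk' R.ker) g = 1 := by
      rw [← MonoidHom.mem_ker, QuotientGroup.ker_mk']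
      exact hg
    rw [this, map_one]
  · intro g hg
    rw [MonoidHom.mem_ker, MonoidHom.comp_apply]
    have : (QuotientGroup.mk' R.ker) g = 1 := by
      rw [← MonoidHom.mem_ker, QuotientGroup.ker_mk']
      exact hg
    rw [this, map_one]
  · obtain ⟨P, hP⟩ := hc g
    rw [← hP]
    have h1 : (((R0.comp (QuotientGroup.mk' R.ker)) g : GL (Fin n) L) : Matrix (Fin n) (Fin n) L).charpoly =
        P.map (algebraMap K L) := by
      refine Polynomial.ext fun i => ?_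
      rw [Polynomial.coeff_map, ← Pool.Agent.U849.DG.val_cpoly]
      refine hR0 ((g : GQ ⧸ R.ker), Pool.Agent.U849.DG.cpoly n i, P.coeff i) ?_
      change Pool.Agent.U849.DG.val (M (g : GQ ⧸ R.ker)) (Pool.Agent.U849.DG.cpoly n i) = _
      rw [Pool.Agent.U849.DG.val_cpoly, hM, ← hP, Polynomial.coeff_map]
      rfl
    rw [h1, Polynomial.map_map]
    congr 1
    refine RingHom.ext fun x => ?_
    exact j.commutes x

/-- every element is a geometric Frobenius element modulo the kernel -/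
theorem exists_geom {k : Type*} [Field k] (R : GQ →* GL (Fin n) k) (hR : IsOpen (R.ker : Set GQ)) {B : Set ℕ}
    (hB : Zd B) (g : GQ) : ∃ (p : ℕ) (P : Ideal ZBar) (σ : GQ), p.Prime ∧ p ∉ B ∧ P.IsMaximal ∧
      (p : ZBar) ∈ P ∧ IsGeomFrob p P σ ∧ R σ = R g := by
  obtain ⟨p, P, σ, hp, hpB, hP, hpP, hσ, h⟩ := exists_frob' R.ker hR hB g⁻¹
  refine ⟨p, P, σ⁻¹, hp, hpB, hP, hpP, fun x => ?_, ?_⟩
  · have h1 := hσ (σ⁻¹ • x)
    rwa [smul_inv_smul] at h1
  · rw [inv_inv, MonoidHom.mem_ker, map_mul] at h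
    rw [map_inv]
    exact inv_eq_of_mul_eq_one_left h

/-! ### irreducibility -/

/-- the prime of `𝓞 ℚ` -/
noncomputable def hs {p : ℕ} (hp : p.Prime) : HeightOneSpectrum (𝓞 ℚ) :=
  ⟨W571.FM.pl p, W571.FM.pl_prime hp, W571.FM.pl_ne hp⟩

theorem norm_hs {p : ℕ} (hp : p.Prime) : Ideal.absNorm (hs hp).asIdeal = p := W571.FM.absNorm_pl p

theorem above_prime (v : HeightOneSpectrum (𝓞 ℚ)) {P : Ideal ZBar} (hP : Pool.Agent.U849.DG.Above v P) :
    (Ideal.absNorm v.asIdeal).Prime ∧ ((Ideal.absNorm v.asIdeal : ℕ) : ZBar) ∈ P ∧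
      v.asIdeal = W571.FM.pl (Ideal.absNorm v.asIdeal) := by
  obtain ⟨q, hq, hqQ⟩ := W569.FM.exists_char P hP.1
  have h2 : v.asIdeal = W571.FM.pl q := by
    rw [← hP.2]
    exact W571.FM.cm_eq hq hP.1 hqQ
  have h3 : Ideal.absNorm v.asIdeal = q := by rw [h2, W571.FM.absNorm_pl]
  rw [h3]
  exact ⟨hq, hqQ, h2⟩

theorem exists_above (v : HeightOneSpectrum (𝓞 ℚ)) : ∃ P : Ideal ZBar, Pool.Agent.U849.DG.Above v P := by
  obtain ⟨σ, Q, hQ, hQv, -⟩ := Pool.Agent.W401.Frob.exists_frob v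
  exact ⟨Q, hQ, hQv⟩

theorem prime_of (v : HeightOneSpectrum (𝓞 ℚ)) : ∃ hp : (Ideal.absNorm v.asIdeal).Prime, v = hs hp := by
  obtain ⟨P, hP⟩ := exists_above v
  obtain ⟨h1, -, h3⟩ := above_prime v hP
  exact ⟨h1, HeightOneSpectrum.ext h3⟩

theorem norm_inj {v v' : HeightOneSpectrum (𝓞 ℚ)} (h : Ideal.absNorm v.asIdeal = Ideal.absNorm v'.asIdeal) :
    v = v' := by
  obtain ⟨h1, e1⟩ := prime_of v
  obtain ⟨h2, e2⟩ := prime_of v'
  apply HeightOneSpectrum.ext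
  rw [e1, e2]
  change W571.FM.pl _ = W571.FM.pl _
  rw [h]

/-- the mean squares over the rational primes -/
theorem meanSq_eq (S : Finset ℕ) (a : ℕ → ℂ) (x : ℕ) :
    Pool.Agent.U849.IR.meanSq {v : HeightOneSpectrum (𝓞 ℚ) | Ideal.absNorm v.asIdeal ∈ S}
      (fun v => a (Ideal.absNorm v.asIdeal)) x =
      (∑ᶠ p ∈ {p : ℕ | p ≤ x ∧ p.Prime ∧ p ∉ (S : Set ℕ)}, ‖a p‖ ^ 2) / Nat.primeCounting x := by
  unfold Pool.Agent.U849.IR.meanSq
  congr 1
  refine finsum_mem_eq_of_bijOn (fun v : HeightOneSpectrum (𝓞 ℚ) => Ideal.absNorm v.asIdeal) ⟨?_, ?_, ?_⟩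
    fun v _ => rfl
  · rintro v ⟨h1, h2⟩
    obtain ⟨hp, -⟩ := prime_of v
    exact ⟨h1, hp, h2⟩
  · intro v _ v' _ h
    exact norm_inj h
  · rintro p ⟨h1, h2, h3⟩
    refine ⟨hs h2, ⟨?_, ?_⟩, norm_hs h2⟩
    · rw [norm_hs h2]
      exact h1
    · change Ideal.absNorm (hs h2).asIdeal ∉ S
      rw [norm_hs h2]
      exact h3

/-- **irreducibility from the mean square** -/
theorem irr_of_meanSq (hn : 0 < n) (R : GQ →* GL (Fin n) ℂ) (hR : IsOpen (R.ker : Set GQ)) {S : Finset ℕ}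
    {a : ℕ → ℂ} (ha : ∀ p : ℕ, p.Prime → p ∉ S → ∀ P : Ideal ZBar, P.IsMaximal → (p : ZBar) ∈ P → ∀ σ : GQ,
      IsGeomFrob p P σ → (mat R σ).trace = a p) {θ : ℝ} (hθ : θ < 2)
    (hfreq : ∃ᶠ x : ℕ in atTop, ∑ᶠ p ∈ {p : ℕ | p ≤ x ∧ p.Prime ∧ p ∉ (S : Set ℕ)}, ‖a p‖ ^ 2 ≤
      θ * Nat.primeCounting x) : Pool.Agent.U849.IR.Irr R := by
  classical
  set E : Set (HeightOneSpectrum (𝓞 ℚ)) := {v | Ideal.absNorm v.asIdeal ∈ S} with hE
  have hEf : E.Finite := by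
    refine Set.Finite.of_finite_image (f := fun v => Ideal.absNorm v.asIdeal)
      (S.finite_toSet.subset ?_) fun v _ v' _ h => norm_inj h
    rintro _ ⟨v, hv, rfl⟩
    exact hv
  have hlim := Pool.Agent.U849.IR.limit (F := ℚ) (RingHom.id ℂ) R hR
    (Pool.Agent.U849.DG.DensityZero.of_finite hEf) (a := fun v => a (Ideal.absNorm v.asIdeal)) (by
    intro v hv P hP g hg
    obtain ⟨h1, h2, -⟩ := above_prime v hP
    refine ha _ h1 hv P hP.1 h2 g⁻¹ fun x => ?_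
    have h3 := hg (g⁻¹ • x)
    rwa [smul_inv_smul] at h3)
  have hle : (Module.finrank ℂ (Pool.Agent.U849.IR.commutant R) : ℝ) < 2 := by
    by_contra hcon
    push Not at hcon
    have h1 : ∀ᶠ x in atTop, θ < Pool.Agent.U849.IR.meanSq E (fun v => a (Ideal.absNorm v.asIdeal)) x :=
      (tendsto_order.1 hlim).1 θ (lt_of_lt_of_le hθ hcon)
    have h2 : ∀ᶠ x : ℕ in atTop, 0 < (Nat.primeCounting x : ℝ) :=
      (tendsto_natCast_atTop_atTop.comp Nat.tendsto_primeCounting).eventually_gt_atTop 0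
    obtain ⟨x, h3, h4, h5⟩ := (hfreq.and_eventually (h1.and h2)).exists
    rw [hE, meanSq_eq S a x, lt_div_iff₀ h5] at h4
    linarith
  exact Pool.Agent.U849.IR.irr_of_finrank hn (Pool.Agent.U849.DG.ss_of_open R hR) (by exact_mod_cast hle)

end Pool.Agent.U849.SM
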