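import Pool.Agent.U849.SM.Rel

/-!
# Relations between complete L-functions outside a thin set hold at all places
-/

set_option autoImplicit false

namespace Pool.Agent.U849.SM

open Filter Topology Complex Set Pool.Agent.N210.FV Pool.Agent.N210.FW Pool.Agent.N845.SP
  Pool.Agent.U253.EEA Pool.Agent.U849.TE

theorem CompleteL.nice {S : Finset ℕ} {B : ℕ → Multiset ℂ} {μ : Multiset ℂ} (h : CompleteL S B μ) :
    NiceL S B := by
  obtain ⟨B', μ', N, D, N', D', -, -, hN, hN', q, ε, hq, hε, hf⟩ := h.analytic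
  have e1 : ∀ B : ℕ → Multiset ℂ, ∀ s, finEuler (plist S B) s = localInv S B s := fun B s =>
    congrFun (ef_plist (S := S) (B := B)) s
  have e2 : ∀ μ : Multiset ℂ, ∀ s, invGamma μ.toList s = gammaInv μ s := fun μ s =>
    congrFun (gi_toList (μ := μ)) s
  refine ⟨h.bound, N, D, N', D', hN, hN', μ.toList, μ'.toList, plist S B', [], plist S B, [], q, ε, hq,
    hε, ?_, by simp, ?_, by simp, fun s => ?_⟩
  · intro x hx
    exact ⟨h.prime _ (mem_plist.1 hx).1, (mem_plist.1 hx).1⟩
  · intro x hx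
    exact ⟨h.prime _ (mem_plist.1 hx).1, (mem_plist.1 hx).1⟩
  · rw [e1, e1, e2, e2]
    have e3 : ∀ s, finEuler [] s = 1 := fun s => by simp [finEuler]
    rw [e3, e3, mul_one, mul_one]
    exact hf s

section

variable {J : Type*} [Fintype J] {S : Finset ℕ} {n : J → ℕ} {B : J → ℕ → Multiset ℂ}
  {μ : J → Multiset ℂ} {c : J → ℝ}

/-- **Real relations between complete L-functions, valid outside a thin set of primes, hold at all places.** -/
theorem rel_everywhere (hC : ∀ j, CompleteL S (B j) (μ j))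
    (hcard : ∀ j, ∀ p : ℕ, p.Prime → p ∉ S → (B j p).card = n j)
    {E : Set ℕ} {w : ℕ → ℝ} (hE : ThinSet S E w) (hw : ∀ j, SmallAt S E w (B j))
    (hrel : ∀ p : ℕ, p.Prime → p ∉ S → p ∉ E → ∀ x : ℂ, x ≠ 0 →
      ∑ j, c j * ((open Classical in (B j p).count x : ℕ) : ℝ) = 0) :
    (∀ p : ℕ, p.Prime → ∀ x : ℂ, x ≠ 0 → ∑ j, c j * ((open Classical in (B j p).count x : ℕ) : ℝ) = 0) ∧
      ∀ m : ℂ, ∑ j, c j * ((open Classical in (μ j).count m : ℕ) : ℝ) = 0 := by
  classical
  have h1 := rel_nice (fun j => (hC j).nice) hcard hE hw (c := c)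
    (fun p hp hpS hpE k => sum_of_count (hrel p hp hpS hpE) (fun x => x ^ (k + 1)) (by simp))
    (fun p hp hpS hpE k => sum_of_count (hrel p hp hpS hpE) (fun x => (x⁻¹) ^ (k + 1)) (by simp))
  have h2 : ∀ p : ℕ, p.Prime → p ∉ S → ∀ x : ℂ, x ≠ 0 →
      ∑ j, c j * ((open Classical in (B j p).count x : ℕ) : ℝ) = 0 := fun p hp hpS x hx =>
    count_of_powers (h1 p hp hpS) hx
  obtain ⟨h3, h4⟩ := complete_rel hC hcard h2
  refine ⟨fun p hp x hx => ?_, h4⟩
  by_cases hpS : p ∈ S
  · exact h3 p hpS x hx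
  · exact h2 p hp hpS x hx

end

/-- two complete L-functions which agree outside a thin set agree at all places -/
theorem eq_everywhere {S : Finset ℕ} {n : ℕ} {B C : ℕ → Multiset ℂ} {μ ν : Multiset ℂ}
    (hB : CompleteL S B μ) (hC : CompleteL S C ν)
    (hcB : ∀ p : ℕ, p.Prime → p ∉ S → (B p).card = n)
    (hcC : ∀ p : ℕ, p.Prime → p ∉ S → (C p).card = n)
    {E : Set ℕ} {w : ℕ → ℝ} (hE : ThinSet S E w) (hSB : SmallAt S E w B) (hSC : SmallAt S E w C)
    (h : ∀ p : ℕ, p.Prime → p ∉ S → p ∉ E → B p = C p) :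
    (∀ p : ℕ, p.Prime → p ∉ S → B p = C p) ∧
      (∀ p : ℕ, p.Prime → ∀ x : ℂ, x ≠ 0 → (open Classical in (B p).count x = (C p).count x)) ∧
      μ = ν := by
  classical
  have h0 := eq_of_thin hB.nice hC.nice hcB hcC hE hSB hSC h
  have h1 := complete_rel (J := Bool) (S := S) (n := fun _ => n) (B := fun b => if b then B else C)
    (μ := fun b => if b then μ else ν)
    (c := fun b => if b then 1 else -1) (fun b => by cases b <;> simp [hB, hC])
    (fun b p hp hpS => by cases b <;> simp [hcB p hp hpS, hcC p hp hpS])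
    (fun p hp hpS x hx => by simp [Fintype.sum_bool, h0 p hp hpS])
  obtain ⟨h2, h3⟩ := h1
  refine ⟨h0, fun p hp x hx => ?_, ?_⟩
  · by_cases hpS : p ∈ S
    · have h4 := h2 p hpS x hx
      simp only [Fintype.sum_bool, if_true, Bool.false_eq_true, if_false] at h4
      have h5 : ((B p).count x : ℝ) = (C p).count x := by linarith
      exact_mod_cast h5
    · rw [h0 p hp hpS]
  · rw [Multiset.ext]
    intro m
    have h4 := h3 m
    simp only [Fintype.sum_bool, if_true, Bool.false_eq_true, if_false] at h4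
    have h5 : (μ.count m : ℝ) = ν.count m := by linarith
    exact_mod_cast h5

end Pool.Agent.U849.SM
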