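import Pool.Agent.U849.TE.Def

/-!
# Complete L-functions: local factors at all places
-/

set_option autoImplicit false

namespace Pool.Agent.U849.SM

open Filter Topology Complex Pool.Agent.U849.TE

/-- Product of inverse gamma factors `1 / Γ_ℝ(s + m)`, `m ∈ μ`. -/
noncomputable def gammaInv (μ : Multiset ℂ) (s : ℂ) : ℂ := (μ.map fun m => (Gammaℝ (s + m))⁻¹).prod

/-- Product of the inverse Euler factors `∏ (1 - b p^{-s})`, `b ∈ B p`, at the primes `p ∈ S`. -/
noncomputable def localInv (S : Finset ℕ) (B : ℕ → Multiset ℂ) (s : ℂ) : ℂ :=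
  ∏ p ∈ S, ((B p).map fun b => 1 - b * (p : ℂ) ^ (-s)).prod

/-- The functional equation `Λ(s) = ε Λ'(1 - s)`, where
`Λ(s) = q^s · (gammaInv μ s)⁻¹ · (localInv S B s)⁻¹ · N s / D s` and
`Λ'(s) = q^s · (gammaInv μ' s)⁻¹ · (localInv S B' s)⁻¹ · N' s / D' s`. -/
def CompleteEquation (S : Finset ℕ) (B B' : ℕ → Multiset ℂ) (μ μ' : Multiset ℂ) (N D N' D' : ℂ → ℂ) : Prop :=
  ∃ (q : ℝ) (ε : ℂ), 0 < q ∧ ε ≠ 0 ∧
    ∀ s, (q : ℂ) ^ s * gammaInv μ' (1 - s) * localInv S B' (1 - s) * (N s * D' (1 - s)) =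
      ε * (q : ℂ) ^ (1 - s) * gammaInv μ s * localInv S B s * (N' (1 - s) * D s)

/-- **Complete L-functions.** `B p` are the parameters of the Euler factor at the prime `p`, also for `p` in the finite
set `S`, and `μ` those of the factor at infinity. At the primes outside `S` the parameters and their inverses (the
inverse of `0` is `0`) are bounded by a power of `p`; at the primes of `S` and at infinity the local factors have no poles
for `Re s ≥ 1/2`; the same holds for the local factors `B'`, `μ'` of the dual; and the Euler products over the primes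
outside `S` have continuations, which completed by the local factors satisfy the functional equation. -/
structure CompleteL (S : Finset ℕ) (B : ℕ → Multiset ℂ) (μ : Multiset ℂ) : Prop where
  prime : ∀ p ∈ S, p.Prime
  bound : ∃ A : ℝ, ∀ p : ℕ, p.Prime → p ∉ S → ∀ b ∈ B p, ‖b‖ ≤ (p : ℝ) ^ A ∧ ‖b⁻¹‖ ≤ (p : ℝ) ^ A
  local_bound : ∀ p ∈ S, ∀ b ∈ B p, ‖b‖ < √p
  arch_bound : ∀ m ∈ μ, -(1 / 2) < m.re
  analytic : ∃ (B' : ℕ → Multiset ℂ) (μ' : Multiset ℂ) (N D N' D' : ℂ → ℂ),
    (∀ p ∈ S, ∀ b ∈ B' p, ‖b‖ < √p) ∧ (∀ m ∈ μ', -(1 / 2) < m.re) ∧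
    Continuation S B N D ∧ Continuation S (fun p => (B p).map fun b => b⁻¹) N' D' ∧
    CompleteEquation S B B' μ μ' N D N' D'

end Pool.Agent.U849.SM
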