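import Pool.Agent.U849.TE.Eq
import Pool.Agent.U849.SM.Def

/-!
# Orders of the local factors
-/

set_option autoImplicit false

namespace Pool.Agent.U849.SM

open Filter Topology Complex Set Pool.Agent.N210.FV Pool.Agent.N210.FW Pool.Agent.N845.SP
  Pool.Agent.U253.EEA Pool.Agent.U849.TE

variable {S : Finset ℕ} {B : ℕ → Multiset ℂ} {μ : Multiset ℂ}

/-- the list of the bad Euler factors -/
noncomputable def plist (S : Finset ℕ) (B : ℕ → Multiset ℂ) : List (ℕ × ℂ) :=
  S.toList.flatMap fun p => (B p).toList.map fun b => (p, b)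

theorem mem_plist {x : ℕ × ℂ} : x ∈ plist S B ↔ x.1 ∈ S ∧ x.2 ∈ B x.1 := by
  unfold plist
  rw [List.mem_flatMap]
  constructor
  · rintro ⟨p, hp, hx⟩
    rw [List.mem_map] at hx
    obtain ⟨b, hb, rfl⟩ := hx
    exact ⟨Finset.mem_toList.1 hp, Multiset.mem_toList.1 hb⟩
  · rintro ⟨h1, h2⟩
    exact ⟨x.1, Finset.mem_toList.2 h1, List.mem_map.2 ⟨x.2, Multiset.mem_toList.2 h2, rfl⟩⟩

theorem map_toList_prod {M : Type*} [CommMonoid M] (B : Multiset ℂ) (f : ℂ → M) :
    (B.toList.map f).prod = (B.map f).prod := by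
  conv_rhs => rw [← Multiset.coe_toList B]
  rw [Multiset.map_coe, Multiset.prod_coe]

theorem map_toList_sum {M : Type*} [AddCommMonoid M] (B : Multiset ℂ) (f : ℂ → M) :
    (B.toList.map f).sum = (B.map f).sum := by
  conv_rhs => rw [← Multiset.coe_toList B]
  rw [Multiset.map_coe, Multiset.sum_coe]

theorem prod_flat {M : Type*} [CommMonoid M] {α : Type*} (l : List α) (g : α → List M) :
    (l.flatMap g).prod = (l.map fun a => (g a).prod).prod := by
  induction l with
  | nil => simp
  | cons a l ih => rw [List.flatMap_cons, List.prod_append, ih, List.map_cons, List.prod_cons]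

theorem sum_flat {M : Type*} [AddCommMonoid M] {α : Type*} (l : List α) (g : α → List M) :
    (l.flatMap g).sum = (l.map fun a => (g a).sum).sum := by
  induction l with
  | nil => simp
  | cons a l ih => rw [List.flatMap_cons, List.sum_append, ih, List.map_cons, List.sum_cons]

theorem ef_plist : ef (plist S B) = localInv S B := by
  funext s
  unfold ef plist localInv
  rw [List.map_flatMap, prod_flat, ← Finset.prod_map_toList]
  congr 1
  refine List.map_congr_left fun p _ => ?_
  rw [List.map_map, ← map_toList_prod]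
  rfl

theorem gi_toList : gi μ.toList = gammaInv μ := by
  funext s
  unfold gi gammaInv
  rw [map_toList_prod]

theorem mo_localInv (hS : ∀ p ∈ S, p.Prime) (z : ℂ) :
    mo (localInv S B) z = ∑ p ∈ S, (open Classical in (B p).count ((p : ℂ) ^ z)) := by
  classical
  rw [← ef_plist, mo_ef fun x hx => (hS _ (mem_plist.1 hx).1).one_lt]
  unfold plist
  rw [List.map_flatMap, sum_flat, ← Finset.sum_map_toList]
  congr 1
  refine List.map_congr_left fun p _ => ?_
  rw [List.map_map, map_toList_sum (B p)]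
  induction B p using Multiset.induction_on with
  | empty => simp
  | cons a s ih =>
    rw [Multiset.map_cons, Multiset.sum_cons, ih, Multiset.count_cons, add_comm]
    simp only [Function.comp_apply]
    congr 1
    by_cases h : a = (p : ℂ) ^ z
    · rw [if_pos h, if_pos h.symm]
    · rw [if_neg h, if_neg fun h' => h h'.symm]

theorem mo_gammaInv (z : ℂ) : mo (gammaInv μ) z = (μ.map fun m => g1 (z + m)).sum := by
  rw [← gi_toList, mo_gi, map_toList_sum]

theorem localInv_ent (hS : ∀ p ∈ S, p.Prime) : Ent (localInv S B) := by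
  rw [← ef_plist]
  exact ef_ent fun x hx => (hS _ (mem_plist.1 hx).1).one_lt

theorem gammaInv_diff : Differentiable ℂ (gammaInv μ) := by
  rw [← gi_toList]
  exact gi_diff _

theorem gammaInv_ne : ∃ s, gammaInv μ s ≠ 0 := by
  rw [← gi_toList]
  exact gi_ne _

/-- no zeros to the right -/
theorem mo_gammaInv_right (h : ∀ m ∈ μ, -(1 / 2) < m.re) {z : ℂ} (hz : 1 / 2 ≤ z.re) :
    mo (gammaInv μ) z = 0 := by
  rw [mo_gammaInv]
  refine Multiset.sum_eq_zero fun x hx => ?_
  rw [Multiset.mem_map] at hx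
  obtain ⟨m, hm, rfl⟩ := hx
  refine mo_nz differentiable_Gammaℝ_inv (inv_ne_zero (Gammaℝ_ne_zero_of_re_pos ?_))
  rw [add_re]
  have := h m hm
  linarith

theorem mo_localInv_right (hS : ∀ p ∈ S, p.Prime) (h : ∀ p ∈ S, ∀ b ∈ B p, ‖b‖ < √p) {z : ℂ}
    (hz : 1 / 2 ≤ z.re) : mo (localInv S B) z = 0 := by
  classical
  rw [mo_localInv hS]
  refine Finset.sum_eq_zero fun p hp => ?_
  rw [Multiset.count_eq_zero]
  intro hmem
  have h1 := h p hp _ hmem
  have hp0 : 0 < (p : ℝ) := by exact_mod_cast (hS p hp).pos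
  rw [← ofReal_natCast, Complex.norm_cpow_eq_rpow_re_of_pos hp0, Real.sqrt_eq_rpow] at h1
  have h2 : (p : ℝ) ^ (1 / 2 : ℝ) ≤ (p : ℝ) ^ z.re :=
    Real.rpow_le_rpow_of_exponent_le (by exact_mod_cast (hS p hp).one_lt.le) hz
  linarith

/-! ### relations -/

/-- power sums and multiplicities -/
theorem count_of_powers {J : Type*} [Fintype J] {B : J → Multiset ℂ} {c : J → ℝ}
    (h : ∀ k : ℕ, ∑ j, (c j : ℂ) * ((B j).map fun x => x ^ (k + 1)).sum = 0) {x : ℂ} (hx : x ≠ 0) :
    ∑ j, c j * ((open Classical in (B j).count x : ℕ) : ℝ) = 0 := by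
  classical
  have h1 : ∀ P : Polynomial ℂ, P.eval 0 = 0 →
      ∑ j, (c j : ℂ) * ((B j).map fun x => P.eval x).sum = 0 := by
    intro P hP
    have e : ∀ D : Multiset ℂ, (D.map fun x => P.eval x).sum =
        ∑ k ∈ Finset.range P.natDegree, P.coeff (k + 1) * (D.map fun x => x ^ (k + 1)).sum := by
      intro D
      have h0 : ∀ x : ℂ, P.eval x = ∑ k ∈ Finset.range P.natDegree, P.coeff (k + 1) * x ^ (k + 1) := by
        intro x
        rw [Polynomial.eval_eq_sum_range, Finset.sum_range_succ']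
        rw [← Polynomial.coeff_zero_eq_eval_zero] at hP
        rw [hP, zero_mul, add_zero]
      simp_rw [h0]
      have : ∀ k ∈ Finset.range P.natDegree, P.coeff (k + 1) * (D.map fun x => x ^ (k + 1)).sum =
          (D.map fun x => P.coeff (k + 1) * x ^ (k + 1)).sum := fun k _ =>
        (Multiset.sum_map_mul_left).symm
      rw [Finset.sum_congr rfl this]
      exact Multiset.sum_map_sum_map D (Finset.range P.natDegree).val
        (f := fun x k => P.coeff (k + 1) * x ^ (k + 1))
    simp_rw [e, Finset.mul_sum]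
    rw [Finset.sum_comm]
    refine Finset.sum_eq_zero fun k _ => ?_
    have h2 := h k
    have h3 : ∀ j ∈ Finset.univ, (c j : ℂ) * (P.coeff (k + 1) * ((B j).map fun x => x ^ (k + 1)).sum) =
        P.coeff (k + 1) * ((c j : ℂ) * ((B j).map fun x => x ^ (k + 1)).sum) := fun j _ => by ring
    rw [Finset.sum_congr rfl h3, ← Finset.mul_sum, h2, mul_zero]
  set F : Finset ℂ := (Finset.univ.biUnion fun j => (B j).toFinset).erase x with hF
  set P : Polynomial ℂ := Polynomial.X * ∏ y ∈ F, (Polynomial.X - Polynomial.C y) with hP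
  have hP0 : P.eval 0 = 0 := by
    rw [hP, Polynomial.eval_mul, Polynomial.eval_X, zero_mul]
  have hPx : P.eval x ≠ 0 := by
    rw [hP, Polynomial.eval_mul, Polynomial.eval_X, Polynomial.eval_prod]
    refine mul_ne_zero hx ?_
    rw [Finset.prod_ne_zero_iff]
    intro y hy
    rw [Polynomial.eval_sub, Polynomial.eval_X, Polynomial.eval_C, sub_ne_zero]
    exact (Finset.ne_of_mem_erase hy).symm
  have hPy : ∀ j, ∀ y ∈ (B j).toFinset, y ≠ x → P.eval y = 0 := by
    intro j y hy hyx
    rw [hP, Polynomial.eval_mul, Polynomial.eval_prod, Finset.prod_eq_zero (i := y)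
      (Finset.mem_erase.2 ⟨hyx, Finset.mem_biUnion.2 ⟨j, Finset.mem_univ _, hy⟩⟩), mul_zero]
    simp
  have e : ∀ j, ((B j).map fun y => P.eval y).sum = (B j).count x * P.eval x := by
    intro j
    rw [Finset.sum_multiset_map_count]
    by_cases hxD : x ∈ (B j).toFinset
    · rw [Finset.sum_eq_single_of_mem x hxD fun y hy' hyx => by rw [hPy j y hy' hyx, smul_zero],
        nsmul_eq_mul]
    · rw [Finset.sum_eq_zero fun y hy' => by
        rw [hPy j y hy' (fun h => hxD (h ▸ hy')), smul_zero]]
      rw [Multiset.count_eq_zero_of_notMem (by simpa using hxD)]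
      simp
  have h2 := h1 P hP0
  simp_rw [e] at h2
  have h3 : (∑ j, (c j : ℂ) * ((B j).count x : ℂ)) * P.eval x = 0 := by
    rw [Finset.sum_mul, ← h2]
    exact Finset.sum_congr rfl fun j _ => by ring
  have h4 := (mul_eq_zero.1 h3).resolve_right hPx
  exact_mod_cast h4

/-- multiplicities and sums of functions -/
theorem sum_of_count {J : Type*} [Fintype J] {B : J → Multiset ℂ} {c : J → ℝ}
    (h : ∀ x : ℂ, x ≠ 0 → ∑ j, c j * ((open Classical in (B j).count x : ℕ) : ℝ) = 0) (g : ℂ → ℂ)
    (hg : g 0 = 0) : ∑ j, (c j : ℂ) * ((B j).map g).sum = 0 := by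
  classical
  set F : Finset ℂ := Finset.univ.biUnion fun j => (B j).toFinset with hF
  have e : ∀ j, ((B j).map g).sum = ∑ x ∈ F, ((B j).count x : ℂ) * g x := by
    intro j
    rw [Finset.sum_multiset_map_count]
    have h1 : (B j).toFinset ⊆ F := Finset.subset_biUnion_of_mem (fun j => (B j).toFinset) (Finset.mem_univ j)
    simp_rw [nsmul_eq_mul]
    refine Finset.sum_subset h1 fun x _ hx => ?_
    rw [Multiset.count_eq_zero_of_notMem (by simpa using hx)]
    simp
  simp_rw [e, Finset.mul_sum]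
  rw [Finset.sum_comm]
  refine Finset.sum_eq_zero fun x _ => ?_
  by_cases hx : x = 0
  · refine Finset.sum_eq_zero fun j _ => ?_
    rw [hx, hg, mul_zero, mul_zero]
  · have h1 : ((∑ j, c j * ((B j).count x : ℝ) : ℝ) : ℂ) = 0 := by
      rw [h x hx, ofReal_zero]
    push_cast at h1
    have h2 : ∀ j ∈ Finset.univ, (c j : ℂ) * (((B j).count x : ℂ) * g x) =
        ((c j : ℂ) * ((B j).count x : ℂ)) * g x := fun j _ => by ring
    rw [Finset.sum_congr rfl h2, ← Finset.sum_mul, h1, zero_mul]

end Pool.Agent.U849.SM
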