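import Pool.Agent.U849.SM.Ord

/-!
# Real relations between complete L-functions hold at all places
-/

set_option autoImplicit false

namespace Pool.Agent.U849.SM

open Filter Topology Complex Set Pool.Agent.N210.FV Pool.Agent.N210.FW Pool.Agent.N845.SP
  Pool.Agent.U253.EEA Pool.Agent.U849.TE

/-- the logarithmic derivative of a continuation -/
theorem ld_half {S : Finset ℕ} {n : ℕ} {β : ℕ → ℕ → ℂ} {N D : ℂ → ℂ} {A : ℝ} (hL : Half S n β N D)
    (h : Gr S (Finset.range n) β A) (hA : 0 ≤ A) :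
    Ent N ∧ Ent D ∧ ∀ s : ℂ, A + 1 < s.re →
      logDeriv N s - logDeriv D s = -Ds (aa S 1 (ps (Finset.range n) β)) (oo S 1) s := by
  have nd : ∀ s : ℂ, A + 1 < s.re → N s = D s * exp (Ds (bt S (ps (Finset.range n) β)) (oo S 1) s) := by
    intro s hs
    have h1 : (1 : ℝ) < s.re := by linarith
    have h3 := tendsto_nhds_unique (hL.euler s h1) (eul' h hs)
    rw [div_eq_iff (hL.ne s h1)] at h3
    rw [h3]
    ring
  obtain ⟨C, hC⟩ := hL.order
  refine ⟨⟨hL.diffN, ⟨((A + 2 : ℝ) : ℂ), fun h0 => ?_⟩, C, fun s => (hC s).1⟩,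
    ⟨hL.diffD, ⟨2, hL.ne 2 (by norm_num)⟩, C, fun s => (hC s).2⟩, fun s hs => ?_⟩
  · have h1 := nd ((A + 2 : ℝ) : ℂ) (by rw [ofReal_re]; linarith)
    rw [h0] at h1
    exact mul_ne_zero (hL.ne _ (by rw [ofReal_re]; linarith)) (exp_ne_zero _) h1.symm
  · have hd : HasDerivAt (Ds (bt S (ps (Finset.range n) β)) (oo S 1)) _ s :=
      Ds_hasDeriv (σ := (A + 1 + s.re) / 2) (h.summ_bt (by linarith)) (fun i => oo_nonneg 1 i)
        (by linarith)
    have h1 : N =ᶠ[𝓝 s] fun s => D s * exp (Ds (bt S (ps (Finset.range n) β)) (oo S 1) s) := by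
      filter_upwards [(isOpen_lt continuous_const continuous_re).mem_nhds hs] with u hu
      exact nd u hu
    rw [(logDeriv_congr_nhds h1).eq_of_nhds, logDeriv_mul (f := D) (g := fun s =>
      exp (Ds (bt S (ps (Finset.range n) β)) (oo S 1) s)) s (hL.ne s (by linarith)) (exp_ne_zero _)
      (hL.diffD s) hd.cexp.differentiableAt]
    have h2 : logDeriv (fun s => exp (Ds (bt S (ps (Finset.range n) β)) (oo S 1) s)) s =
        -Ds (aa S 1 (ps (Finset.range n) β)) (oo S 1) s := by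
      rw [logDeriv_apply, hd.cexp.deriv, mul_div_cancel_left₀ _ (exp_ne_zero _)]
      simp_rw [bt_mul]
    rw [h2]
    ring

section

variable {J : Type*} [Fintype J] {c : J → ℝ} {S : Finset ℕ} {F : J → ℕ → ℕ → ℂ}
  {N D : J → ℂ → ℂ} {σ₁ : ℝ}

/-- relations between the coefficients are relations between the orders -/
theorem mm_rel (hN : ∀ j, Ent (N j)) (hD : ∀ j, Ent (D j))
    (hs : ∀ j, ∀ s : ℂ, σ₁ < s.re →
      Summable fun i : PS S × ℕ => aa S 1 (F j) i * exp (-(oo S 1 i : ℂ) * s))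
    (ld : ∀ j, ∀ s : ℂ, σ₁ < s.re →
      logDeriv (N j) s - logDeriv (D j) s = -Ds (aa S 1 (F j)) (oo S 1) s)
    (h0 : ∀ (p : PS S) (k : ℕ), GG c F p (k + 1) = 0) (z : ℂ) :
    ∑ j, c j * ((mo (N j) z : ℝ) - mo (D j) z) = 0 := by
  rw [← mm_gg]
  have hg : ∀ x : J × Bool, Ent (gg N D x) := by
    intro x
    unfold gg
    split_ifs
    · exact hN x.1
    · exact hD x.1
  have h1 : DifferentiableOn ℂ (fun _ : ℂ => (0 : ℂ)) {s : ℂ | z.re - 1 < s.re} :=
    differentiableOn_const _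
  refine (right_of (fun i => (hg i).diff) (fun i => (hg i).ne) (σ₁ := σ₁) h1 ?_ z
    (by linarith)).1
  intro s hσ _
  rw [A0_gg]
  have h2 : ∀ j ∈ Finset.univ, (c j : ℂ) * (logDeriv (N j) s - logDeriv (D j) s) =
      ∑' i : PS S × ℕ, -((c j : ℂ) * (aa S 1 (F j) i * exp (-(oo S 1 i : ℂ) * s))) := by
    intro j _
    rw [ld j s hσ, tsum_neg, tsum_mul_left]
    unfold Ds
    ring
  rw [Finset.sum_congr rfl h2, ← Summable.tsum_finsetSum]
  · rw [← tsum_zero]
    refine tsum_congr fun i => ?_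
    have h3 := h0 i.1 i.2
    unfold GG at h3
    have h4 : ∀ j ∈ Finset.univ, -((c j : ℂ) * (aa S 1 (F j) i * exp (-(oo S 1 i : ℂ) * s))) =
        ((c j : ℂ) * F j i.1 (i.2 + 1)) * (-((Real.log (i.1 : ℕ) : ℝ) * exp (-(oo S 1 i : ℂ) * s))) := by
      intro j _
      unfold aa
      ring
    rw [Finset.sum_congr rfl h4, ← Finset.sum_mul, h3, zero_mul]
  · intro j _
    exact ((hs j s hσ).mul_left _).neg

end

/-- the functional equation for the orders -/
theorem fe_ord {S : Finset ℕ} (hS : ∀ p ∈ S, p.Prime) {B B' : ℕ → Multiset ℂ} {μ μ' : Multiset ℂ}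
    {N D N' D' : ℂ → ℂ} (hN : Ent N) (hD : Ent D) (hN' : Ent N') (hD' : Ent D')
    (h : CompleteEquation S B B' μ μ' N D N' D') (z : ℂ) :
    mo (gammaInv μ') (1 - z) + mo (localInv S B') (1 - z) + (mo N z + mo D' (1 - z)) =
      mo (gammaInv μ) z + mo (localInv S B) z + (mo N' (1 - z) + mo D z) := by
  obtain ⟨q, ε, hq, hε, h⟩ := h
  have hq0 : (q : ℂ) ≠ 0 := by exact_mod_cast hq.ne'
  have qe : (fun s : ℂ => (q : ℂ) ^ s) = fun s => exp ((Real.log q : ℝ) * s) := by
    funext s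
    rw [cpow_def_of_ne_zero hq0, ofReal_log hq.le]
  have dq : Differentiable ℂ fun s : ℂ => (q : ℂ) ^ s := by
    rw [qe]
    fun_prop
  have q0 : ∀ s : ℂ, (q : ℂ) ^ s ≠ 0 := by
    intro s
    have h0 : (q : ℂ) ^ s = exp ((Real.log q : ℝ) * s) := congrFun qe s
    rw [h0]
    exact exp_ne_zero _
  have gd : Differentiable ℂ (gammaInv μ) := gammaInv_diff
  have gd' : Differentiable ℂ (gammaInv μ') := gammaInv_diff
  have gn : ∃ s, gammaInv μ s ≠ 0 := gammaInv_ne
  have gn' : ∃ s, gammaInv μ' s ≠ 0 := gammaInv_ne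
  have el := localInv_ent (B := B) hS
  have el' := localInv_ent (B := B') hS
  have one_ent : Differentiable ℂ fun _ : ℂ => (1 : ℂ) := differentiable_const _
  have e : (fun s : ℂ => (q : ℂ) ^ s * gammaInv μ' (1 - s) * localInv S B' (1 - s) * 1 *
      (N s * D' (1 - s))) = fun s => ε * (q : ℂ) ^ (1 - s) * gammaInv μ s * localInv S B s * 1 *
      (N' (1 - s) * D s) := by
    funext s
    rw [mul_one, mul_one]
    exact h s
  have dε : Differentiable ℂ fun s : ℂ => ε * (q : ℂ) ^ (1 - s) :=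
    (refl_diff (f := fun s : ℂ => (q : ℂ) ^ s) dq).const_mul ε
  have e1 := mo_mul6 dq (refl_diff gd') (refl_diff el'.diff) one_ent hN.diff (refl_diff hD'.diff)
    ⟨0, q0 0⟩ (refl_ne gn') (refl_ne el'.ne) ⟨0, one_ne_zero⟩ hN.ne (refl_ne hD'.ne) z
  have e2 := mo_mul6 dε gd el.diff one_ent (refl_diff hN'.diff) hD.diff
    ⟨0, mul_ne_zero hε (q0 _)⟩ gn el.ne ⟨0, one_ne_zero⟩ (refl_ne hN'.ne) hD.ne z
  rw [e, e2, mo_nz dε (mul_ne_zero hε (q0 _)), mo_nz dq (q0 z), mo_refl gd' gn',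
    mo_refl el'.diff el'.ne, mo_refl hN'.diff hN'.ne, mo_refl hD'.diff hD'.ne,
    mo_nz one_ent one_ne_zero] at e1
  omega

section

variable {J : Type*} [Fintype J] {S : Finset ℕ} {n : J → ℕ} {B : J → ℕ → Multiset ℂ}
  {μ : J → Multiset ℂ} {c : J → ℝ}

/-- the orders of the local factors cancel -/
theorem ord_rel (hC : ∀ j, CompleteL S (B j) (μ j))
    (hcard : ∀ j, ∀ p : ℕ, p.Prime → p ∉ S → (B j p).card = n j)
    (hrel : ∀ p : ℕ, p.Prime → p ∉ S → ∀ x : ℂ, x ≠ 0 →
      ∑ j, c j * ((open Classical in (B j p).count x : ℕ) : ℝ) = 0) (z : ℂ) :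
    ∑ j, c j * ((mo (gammaInv (μ j)) z : ℝ) + mo (localInv S (B j)) z) = 0 := by
  classical
  rcases isEmpty_or_nonempty J with hJ | ⟨⟨j₀⟩⟩
  · simp
  have hS := (hC j₀).prime
  choose A0 hA0 using fun j => (hC j).bound
  choose B' μ' N D N' D' hB' hμ' hN hN' hF using fun j => (hC j).analytic
  set A : ℝ := ∑ j, |A0 j| with hA
  have hA1 : 0 ≤ A := Finset.sum_nonneg fun o _ => abs_nonneg _
  have hbd : ∀ j, ∀ p : ℕ, p.Prime → p ∉ S → ∀ b ∈ B j p, ‖b‖ ≤ (p : ℝ) ^ A ∧ ‖b⁻¹‖ ≤ (p : ℝ) ^ A := by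
    intro o p hp hpS b hb
    have h3 : (p : ℝ) ^ A0 o ≤ (p : ℝ) ^ A := by
      refine Real.rpow_le_rpow_of_exponent_le (by exact_mod_cast hp.one_lt.le) ?_
      exact (le_abs_self _).trans
        (Finset.single_le_sum (f := fun o => |A0 o|) (fun _ _ => abs_nonneg _) (Finset.mem_univ o))
    exact ⟨(hA0 o p hp hpS b hb).1.trans h3, (hA0 o p hp hpS b hb).2.trans h3⟩
  have hg1 : ∀ j, Gr S (Finset.range (n j)) (fun p i => sq (B j p) i) A := fun j p i hi =>
    (hbd j p p.2.1 p.2.2 _ (sq_mem _ (hcard j p p.2.1 p.2.2) (Finset.mem_range.1 hi))).1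
  have hg2 : ∀ j, Gr S (Finset.range (n j)) (fun p i => (sq (B j p) i)⁻¹) A := fun j p i hi =>
    (hbd j p p.2.1 p.2.2 _ (sq_mem _ (hcard j p p.2.1 p.2.2) (Finset.mem_range.1 hi))).2
  have hH1 : ∀ j, Half S (n j) (fun p i => sq (B j p) i) (N j) (D j) := fun j =>
    half_ms (hcard j) id (hN j).entire_N (hN j).entire_D (hN j).order (hN j).ne_zero (hN j).euler
  have hH2 : ∀ j, Half S (n j) (fun p i => (sq (B j p) i)⁻¹) (N' j) (D' j) := fun j => by
    refine half_ms (hcard j) (fun b => b⁻¹) (hN' j).entire_N (hN' j).entire_D (hN' j).order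
      (hN' j).ne_zero ?_
    intro s hs
    refine ((hN' j).euler s hs).congr fun X => ?_
    refine Finset.prod_congr rfl fun p _ => ?_
    rw [Multiset.map_map]
    rfl
  have k1 := fun j => ld_half (hH1 j) (hg1 j) hA1
  have k2 := fun j => ld_half (hH2 j) (hg2 j) hA1
  have e1 : ∀ (p : PS S) (k : ℕ), GG c (fun j => ps (Finset.range (n j))
      (fun p i => sq (B j p) i)) p (k + 1) = 0 := by
    intro p k
    have h1 := sum_of_count (hrel p p.2.1 p.2.2) (fun x => x ^ (k + 1)) (by simp)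
    rw [← h1]
    unfold GG ps
    refine Finset.sum_congr rfl fun j _ => ?_
    beta_reduce
    rw [sum_sq (B j p) (hcard j p p.2.1 p.2.2) fun x => x ^ (k + 1)]
  have e2 : ∀ (p : PS S) (k : ℕ), GG c (fun j => ps (Finset.range (n j))
      (fun p i => (sq (B j p) i)⁻¹)) p (k + 1) = 0 := by
    intro p k
    have h1 := sum_of_count (hrel p p.2.1 p.2.2) (fun x => (x⁻¹) ^ (k + 1)) (by simp)
    rw [← h1]
    unfold GG ps
    refine Finset.sum_congr rfl fun j _ => ?_
    beta_reduce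
    rw [sum_sq (B j p) (hcard j p p.2.1 p.2.2) fun x => (x⁻¹) ^ (k + 1)]
  have r1 := fun z => mm_rel (c := c) (σ₁ := A + 1) (fun j => (k1 j).1) (fun j => (k1 j).2.1)
    (fun j s hs => (hg1 j).summC hs) (fun j => (k1 j).2.2) e1 z
  have r2 := fun z => mm_rel (c := c) (σ₁ := A + 1) (fun j => (k2 j).1) (fun j => (k2 j).2.1)
    (fun j s hs => (hg2 j).summC hs) (fun j => (k2 j).2.2) e2 z
  by_cases hz : 1 / 2 ≤ z.re
  · refine Finset.sum_eq_zero fun j _ => ?_
    rw [mo_gammaInv_right (hC j).arch_bound hz, mo_localInv_right hS (hC j).local_bound hz]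
    simp
  · have hz' : 1 / 2 ≤ (1 - z).re := by
      rw [sub_re, one_re]
      linarith
    have h1 := r1 z
    have h2 := r2 (1 - z)
    have h3 : ∀ j ∈ Finset.univ, c j * ((mo (gammaInv (μ j)) z : ℝ) + mo (localInv S (B j)) z) =
        c j * ((mo (N j) z : ℝ) - mo (D j) z) - c j * ((mo (N' j) (1 - z) : ℝ) - mo (D' j) (1 - z)) := by
      intro j _
      have h4 := fe_ord hS (k1 j).1 (k1 j).2.1 (k2 j).1 (k2 j).2.1 (hF j) z
      rw [mo_gammaInv_right (hμ' j) hz', mo_localInv_right hS (hB' j) hz'] at h4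
      have h5 : ((0 + 0 + (mo (N j) z + mo (D' j) (1 - z)) : ℕ) : ℝ) =
          ((mo (gammaInv (μ j)) z + mo (localInv S (B j)) z + (mo (N' j) (1 - z) + mo (D j) z) : ℕ) : ℝ) := by
        exact_mod_cast h4
      push_cast at h5
      rw [← mul_sub]
      congr 1
      linarith only [h5]
    rw [Finset.sum_congr rfl h3, Finset.sum_sub_distrib, h1, h2, sub_zero]

/-- periodicity of one prime -/
theorem one_per (c : J → ℝ) (B : J → ℕ → Multiset ℂ) {p : ℕ} (hp : p.Prime) (z : ℂ) :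
    ∑ j, c j * ((open Classical in (B j p).count ((p : ℂ) ^ (z + (2 * Real.pi / Real.log p : ℝ) * I)) : ℕ) : ℝ) =
      ∑ j, c j * ((open Classical in (B j p).count ((p : ℂ) ^ z) : ℕ) : ℝ) := by
  have hl : 0 < Real.log p := Real.log_pos (by exact_mod_cast hp.one_lt)
  have hp0 : (p : ℂ) ≠ 0 := by exact_mod_cast hp.ne_zero
  have hlc : Complex.log (p : ℂ) ≠ 0 := by
    rw [← natCast_log]
    exact_mod_cast hl.ne'
  have h1 : (p : ℂ) ^ (((2 * Real.pi / Real.log p : ℝ) : ℂ) * Complex.I) = 1 := by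
    rw [cpow_def_of_ne_zero hp0, exp_eq_one_iff]
    refine ⟨1, ?_⟩
    push_cast
    field_simp
  rw [cpow_add _ _ hp0, h1, mul_one]

/-- **Real relations between complete L-functions hold at all places.** -/
theorem complete_rel (hC : ∀ j, CompleteL S (B j) (μ j))
    (hcard : ∀ j, ∀ p : ℕ, p.Prime → p ∉ S → (B j p).card = n j)
    (hrel : ∀ p : ℕ, p.Prime → p ∉ S → ∀ x : ℂ, x ≠ 0 →
      ∑ j, c j * ((open Classical in (B j p).count x : ℕ) : ℝ) = 0) :
    (∀ p ∈ S, ∀ x : ℂ, x ≠ 0 → ∑ j, c j * ((open Classical in (B j p).count x : ℕ) : ℝ) = 0) ∧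
      ∀ m : ℂ, ∑ j, c j * ((open Classical in (μ j).count m : ℕ) : ℝ) = 0 := by
  classical
  rcases isEmpty_or_nonempty J with hJ | ⟨⟨j₀⟩⟩
  · simp
  have hS := (hC j₀).prime
  have hord := ord_rel hC hcard hrel
  set φ : ℕ → ℂ → ℝ := fun p z => ∑ j, c j * (((B j p).count ((p : ℂ) ^ z) : ℕ) : ℝ) with hφ
  set ψ : ℂ → ℝ := fun z => ∑ p ∈ S, φ p z with hψ
  set G : ℂ → ℝ := fun z => ∑ j, c j * (mo (gammaInv (μ j)) z : ℝ) with hG
  have hsum : ∀ z, G z + ψ z = 0 := by
    intro z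
    rw [← hord z]
    simp only [hG, hψ, hφ]
    rw [Finset.sum_comm, ← Finset.sum_add_distrib]
    refine Finset.sum_congr rfl fun j _ => ?_
    rw [mo_localInv hS, mul_add, Nat.cast_sum, Finset.mul_sum]
  obtain ⟨Bd, hBd⟩ : ∃ Bd : ℝ, ∀ j, ∀ m ∈ μ j, |m.im| ≤ Bd := by
    refine ⟨∑ j, ((μ j).map fun m => |m.im|).sum, fun j m hm => ?_⟩
    have h1 : |m.im| ≤ ((μ j).map fun m => |m.im|).sum :=
      Multiset.single_le_sum (by
        intro x hx
        rw [Multiset.mem_map] at hx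
        obtain ⟨y, -, rfl⟩ := hx
        exact abs_nonneg _) _ (Multiset.mem_map.2 ⟨m, hm, rfl⟩)
    refine h1.trans (Finset.single_le_sum (f := fun j => ((μ j).map fun m => |m.im|).sum)
      (fun j _ => Multiset.sum_nonneg ?_) (Finset.mem_univ j))
    intro x hx
    rw [Multiset.mem_map] at hx
    obtain ⟨y, -, rfl⟩ := hx
    exact abs_nonneg _
  have hGfar : ∀ z : ℂ, Bd < z.im → G z = 0 := by
    intro z hz
    simp only [hG]
    refine Finset.sum_eq_zero fun j _ => ?_
    rw [← gi_toList, gi_far (fun m hm => ?_)]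
    · simp
    · have h1 := (abs_le.1 (hBd j m (Multiset.mem_toList.1 hm))).1
      intro h2
      linarith
  have hper : ∀ p ∈ S, ∀ z, φ p (z + (2 * Real.pi / Real.log p : ℝ) * I) = φ p z := by
    intro p hp z
    have h1 := one_per c B (hS p hp) z
    simp only [hφ]
    exact h1
  have hψ0 : ∀ z, ψ z = 0 := by
    have hk : Kill (per S) ψ := Kill.finset S fun p hp => Kill.of_periodic (per_mem hp) (hper p hp)
    refine Kill.vanish (per_pos hS) hk (B := Bd) fun z hz => ?_
    have h1 := hsum z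
    rw [hGfar z hz, zero_add] at h1
    exact h1
  have hG0 : ∀ z, G z = 0 := by
    intro z
    have h1 := hsum z
    rwa [hψ0 z, add_zero] at h1
  refine ⟨fun p₀ hp₀ x hx => ?_, fun m => ?_⟩
  · have hpp := hS p₀ hp₀
    have hl0 : 0 < Real.log p₀ := Real.log_pos (by exact_mod_cast hpp.one_lt)
    have hlc : Complex.log (p₀ : ℂ) ≠ 0 := by
      rw [← natCast_log]
      exact_mod_cast hl0.ne'
    have hp0 : (p₀ : ℂ) ≠ 0 := by exact_mod_cast hpp.ne_zero
    have key : φ p₀ (Complex.log x / Complex.log p₀) = 0 := by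
      refine sep hpp (S.erase p₀).toList (fun p hp => ?_)
        (X := Finset.univ.biUnion fun j => (B j p₀).toFinset) (fun z hz => ?_) ?_ _
      · rw [Finset.mem_toList, Finset.mem_erase] at hp
        exact ⟨hS p hp.2, hp.1⟩
      · by_contra hcon
        apply hz
        simp only [hφ]
        refine Finset.sum_eq_zero fun j _ => ?_
        rw [Multiset.count_eq_zero_of_notMem, Nat.cast_zero, mul_zero]
        intro hmem
        exact hcon (Finset.mem_biUnion.2 ⟨j, Finset.mem_univ _, Multiset.mem_toFinset.2 hmem⟩)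
      · have h1 : Kill ((S.erase p₀).toList.map fun p : ℕ => 2 * Real.pi / Real.log p)
            fun z => ∑ p ∈ S.erase p₀, φ p z :=
          Kill.finset _ fun p hp => Kill.of_periodic (List.mem_map.2 ⟨p, Finset.mem_toList.2 hp, rfl⟩)
            (hper p (Finset.mem_of_mem_erase hp))
        have h2 := h1.const_mul (-1)
        refine (congrArg (Kill _) ?_).mp h2
        funext z
        have h3 := hψ0 z
        simp only [hψ] at h3
        rw [← Finset.add_sum_erase S (fun p => φ p z) hp₀] at h3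
        linarith
    have h5 : (p₀ : ℂ) ^ (Complex.log x / Complex.log p₀) = x := by
      rw [cpow_def_of_ne_zero hp0, mul_div_cancel₀ _ hlc, exp_log hx]
    simp only [hφ, h5] at key
    exact key
  · have h1 := hG0 (-m)
    have h2 := hG0 (-m + 2)
    simp only [hG, mo_gammaInv] at h1 h2
    have h3 : ∀ j, ((μ j).map fun a => g1 (-m + a)).sum =
        ((μ j).map fun a => g1 (-m + 2 + a)).sum + (μ j).count m := by
      intro j
      induction μ j using Multiset.induction_on with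
      | empty => simp
      | cons a s ih =>
        rw [Multiset.map_cons, Multiset.sum_cons, Multiset.map_cons, Multiset.sum_cons, ih,
          Multiset.count_cons, g1_step (-m + a)]
        have e1 : -m + a + 2 = -m + 2 + a := by ring
        have e2 : (-m + a = 0) ↔ m = a := by
          constructor
          · intro h
            linear_combination -h
          · intro h
            rw [h]
            ring
        rw [e1]
        by_cases h : m = a
        · rw [if_pos h, if_pos (e2.2 h)]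
          ring
        · rw [if_neg h, if_neg fun h' => h (e2.1 h')]
          ring
    simp only [h3, Nat.cast_add, mul_add, Finset.sum_add_distrib] at h1
    rw [h2, zero_add] at h1
    exact h1

end

end Pool.Agent.U849.SM
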